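import Pool.Agent.Q15.AvgDegD

set_option autoImplicit false

/-!
# The average degree of the irreducible factors of the `R`-transforms grows at least linearly

`A_{f,R}(n) ≫ n` holds exactly when the degrees of the squarefree parts are unbounded; this is so
as soon as a root of `f` which is not `R`-critical is outside of the forward orbit of infinity, for
example if `f` has no root in `F_q`. Without this it can fail: `R = x / (x² + x + 1)`, `f = x` over `F_2`.
-/

namespace Pool.Agent.Results.MP_fa793f_nt.LinearGrowth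

open Polynomial Filter

universe u

/-- The transform `f_R = h ^ (deg f) f(g / h)` of `f` under `R = g / h`. -/
noncomputable def transform {K : Type u} [Field K] (g h f : K[X]) : K[X] :=
  ∑ i ∈ Finset.range (f.natDegree + 1), C (f.coeff i) * g ^ i * h ^ (f.natDegree - i)

/-- The set of the distinct monic irreducible factors of `F`. -/
noncomputable def factors {K : Type u} [Field K] (F : K[X]) : Finset K[X] := by
  classical exact (UniqueFactorizationMonoid.normalizedFactors F).toFinset

/-- `δ_{f,R}(n)`: the sum of the degrees of the distinct irreducible factors of `f_R^{(n)}`. -/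
noncomputable def delta {K : Type u} [Field K] (g h f : K[X]) (n : ℕ) : ℕ :=
  ∑ p ∈ factors ((transform g h)^[n] f), p.natDegree

/-- `A_{f,R}(n) = δ_{f,R}(n) / N_{f,R}(n)`: the average degree of the distinct irreducible factors. -/
noncomputable def A {K : Type u} [Field K] (g h f : K[X]) (n : ℕ) : ℝ :=
  (delta g h f n : ℝ) / ((factors ((transform g h)^[n] f)).card : ℝ)

/-- The map `R = g / h` of the projective line over `L` (`none` is the point at infinity). -/
noncomputable def R {K : Type u} [Field K] (L : Type u) [Field L] [Algebra K L] (g h : K[X]) :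
    Option L → Option L
  | some x => by classical exact if aeval x h = 0 then none else some (aeval x g / aeval x h)
  | none => if h.natDegree < g.natDegree then none
      else some (algebraMap K L (g.coeff h.natDegree / h.leadingCoeff))

/-- `α` is `R`-critical: the number of the solutions `x` of `R^{(n)}(x) = α` is bounded. -/
def Critical {K : Type u} [Field K] (g h : K[X]) (α : AlgebraicClosure K) : Prop :=
  ∃ B : ℕ, ∀ n : ℕ,
    {x : AlgebraicClosure K | (R (AlgebraicClosure K) g h)^[n] (some x) = some α}.encard ≤ B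

/-- `F ≫ n` -/
def AtLeastLinear (F : ℕ → ℝ) : Prop := ∃ c : ℝ, 0 < c ∧ ∀ᶠ n : ℕ in atTop, c * n ≤ F n

theorem delta_eq {K : Type u} [Field K] (g h f : K[X]) : delta g h f = Pool.Agent.Q15.AvgDeg.delta g h f := rfl

theorem A_eq {K : Type u} [Field K] (g h f : K[X]) : A g h f = Pool.Agent.Q15.AvgDeg.A g h f := rfl

theorem R_eq {K : Type u} [Field K] (L : Type u) [Field L] [Algebra K L] (g h : K[X]) :
    R L g h = Pool.Agent.Q15.AvgDeg.ev L g h := by
  funext x
  cases x <;> rfl

theorem not_critical {K : Type u} [Field K] {g h : K[X]} {α : AlgebraicClosure K} (hα : ¬ Critical g h α) :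
    ∀ B : ℕ, ∃ n : ℕ, (B : ℕ∞) <
      {x : AlgebraicClosure K | (Pool.Agent.Q15.AvgDeg.ev (AlgebraicClosure K) g h)^[n] (some x) = some α}.encard := by
  intro B
  unfold Critical at hα
  push Not at hα
  rw [R_eq] at hα
  exact hα B

theorem orbit_infinity {K : Type u} [Field K] (g h : K[X]) (n : ℕ) :
    (R (AlgebraicClosure K) g h)^[n] none = none ∨
      ∃ a : K, (R (AlgebraicClosure K) g h)^[n] none = some (algebraMap K (AlgebraicClosure K) a) := by
  induction n with
  | zero => exact Or.inl rfl
  | succ n ih =>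
    rw [Function.iterate_succ_apply']
    rcases ih with h1 | ⟨a, h1⟩
    · rw [h1]
      unfold R
      simp only
      split_ifs
      · exact Or.inl rfl
      · exact Or.inr ⟨_, rfl⟩
    · rw [h1]
      unfold R
      simp only
      split_ifs
      · exact Or.inl rfl
      · refine Or.inr ⟨g.eval a / h.eval a, ?_⟩
        rw [aeval_algebraMap_apply, aeval_algebraMap_apply, map_div₀]
        simp

/-- Let `K` be a finite field, `R = g / h` with `g`, `h` coprime and `deg R = max (deg g) (deg h) ≥ 1`, and let
`f` be of positive degree.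
(1) `A_{f,R}(n) ≫ n` if and only if `δ_{f,R}` is unbounded.
(2) `A_{f,R}(n) ≫ n` if some root of `f` is not `R`-critical and not in the forward orbit of infinity.
(3) `A_{f,R}(n) ≫ n` if some root of `f` is not `R`-critical and `f` has no root in `K`.
(4) Over `F_2` there are `R` and `f` such that the root `0` of `f` is not `R`-critical and `A_{f,R}(n) = 1` for
all `n`. -/
theorem result :
    (∀ (K : Type u) [Field K] [Finite K] (g h f : K[X]), IsCoprime g h → 1 ≤ max g.natDegree h.natDegree →
      1 ≤ f.natDegree →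
      (AtLeastLinear (A g h f) ↔ ∀ B : ℕ, ∃ n : ℕ, B ≤ delta g h f n) ∧
      ((∃ α : AlgebraicClosure K, aeval α f = 0 ∧ ¬ Critical g h α ∧
        ∀ n : ℕ, (R (AlgebraicClosure K) g h)^[n] none ≠ some α) → AtLeastLinear (A g h f)) ∧
      ((∀ x : K, f.eval x ≠ 0) → (∃ α : AlgebraicClosure K, aeval α f = 0 ∧ ¬ Critical g h α) →
        AtLeastLinear (A g h f))) ∧
    (∃ g h f : (ZMod 2)[X], IsCoprime g h ∧ 1 ≤ max g.natDegree h.natDegree ∧ 1 ≤ f.natDegree ∧
      aeval (0 : AlgebraicClosure (ZMod 2)) f = 0 ∧ ¬ Critical g h 0 ∧ ∀ n : ℕ, A g h f n = 1) := by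
  constructor
  · intro K _ _ g h f hc hd hf
    have hf0 : f ≠ 0 := by
      rintro rfl
      rw [natDegree_zero] at hf
      omega
    have h1 : (∃ α : AlgebraicClosure K, aeval α f = 0 ∧ ¬ Critical g h α ∧
        ∀ n : ℕ, (R (AlgebraicClosure K) g h)^[n] none ≠ some α) → AtLeastLinear (A g h f) := by
      rintro ⟨α, hα, hcrit, horb⟩
      rw [R_eq] at horb
      exact Pool.Agent.Q15.AvgDeg.main hd hc hf0
        (Pool.Agent.Q15.AvgDeg.unbounded_of_root hd hc hf0 hα (not_critical hcrit) horb)
    refine ⟨⟨?_, ?_⟩, h1, ?_⟩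
    · rintro ⟨c, hc0, hev⟩ B
      rw [eventually_atTop] at hev
      obtain ⟨n₀, hn₀⟩ := hev
      obtain ⟨n₁, hn₁⟩ := exists_nat_ge ((B : ℝ) / c)
      refine ⟨max n₀ n₁, ?_⟩
      have h2 := hn₀ (max n₀ n₁) (le_max_left _ _)
      have h3 : A g h f (max n₀ n₁) ≤ delta g h f (max n₀ n₁) := by
        unfold A
        rcases Nat.eq_zero_or_pos (factors ((transform g h)^[max n₀ n₁] f)).card with h0 | h0
        · rw [h0, Nat.cast_zero, div_zero]
          exact Nat.cast_nonneg _
        · apply div_le_self (Nat.cast_nonneg _)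
          exact_mod_cast h0
      have h4 : (B : ℝ) ≤ c * (max n₀ n₁ : ℕ) := by
        rw [div_le_iff₀ hc0] at hn₁
        have : (n₁ : ℝ) ≤ (max n₀ n₁ : ℕ) := by exact_mod_cast le_max_right _ _
        nlinarith
      have h5 : (B : ℝ) ≤ delta g h f (max n₀ n₁) := by linarith
      exact_mod_cast h5
    · intro hub
      exact Pool.Agent.Q15.AvgDeg.main hd hc hf0 hub
    · rintro hno ⟨α, hα, hcrit⟩
      refine h1 ⟨α, hα, hcrit, fun n hn => ?_⟩
      rcases orbit_infinity g h n with h2 | ⟨a, h2⟩
      · rw [h2] at hn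
        exact absurd hn (by simp)
      · rw [h2, Option.some.injEq] at hn
        rw [← hn, aeval_algebraMap_apply] at hα
        apply hno a
        have := (map_eq_zero (algebraMap K (AlgebraicClosure K))).mp hα
        simpa using this
  · refine ⟨X, Pool.Agent.Q15.AvgDeg.exh, X, Pool.Agent.Q15.AvgDeg.ex_cop, ?_, ?_, ?_, ?_, ?_⟩
    · rw [natDegree_X]; exact le_max_left _ _
    · rw [natDegree_X]
    · rw [aeval_X]
    · rintro ⟨B, hB⟩
      obtain ⟨n, hn⟩ := Pool.Agent.Q15.AvgDeg.ex_noncritical B
      rw [R_eq] at hB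
      exact absurd (lt_of_lt_of_le hn (hB n)) (lt_irrefl _)
    · intro n
      exact Pool.Agent.Q15.AvgDeg.ex_A n

end Pool.Agent.Results.MP_fa793f_nt.LinearGrowth
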